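import Pool.Agent.Y461.KM.Stm

/-!
# Project KM: formal properties of the cup product (job KM-DGA)
-/

set_option autoImplicit false

namespace Pool.Agent.Y473.KM

open MvPolynomial Pool.Agent.Y461.KM

variable {n m : ℕ} {A : Matrix (Fin n) (Fin n) ℤ} {b : Fin n → Fin m → ℚ}

theorem smp_sub {c d : Finset (Finset (Fin n))} (h : Smp A b c) (hd : d ⊆ c)
    (hne : d.Nonempty) : Smp A b d :=
  ⟨hne, fun J hJ => h.2.1 J (hd hJ), fun J hJ K hK => h.2.2 J (hd hJ) K (hd hK)⟩

theorem smp_lo {c : Finset (Finset (Fin n))} (h : Smp A b c) {J : Finset (Fin n)} (hJ : J ∈ c) :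
    Smp A b (c.filter (fun K => K ⊆ J)) :=
  smp_sub h (Finset.filter_subset _ _) ⟨J, by simp [hJ]⟩

theorem smp_hi {c : Finset (Finset (Fin n))} (h : Smp A b c) {J : Finset (Fin n)} (hJ : J ∈ c) :
    Smp A b (c.filter (fun K => J ⊆ K)) :=
  smp_sub h (Finset.filter_subset _ _) ⟨J, by simp [hJ]⟩

theorem cup_smp (Φ Ψ : Cch n m) {c : Finset (Finset (Fin n))} (h : Smp A b c) :
    cup A b Φ Ψ c =
      ∑ J ∈ c, Φ (c.filter (fun K => K ⊆ J)) * Ψ (c.filter (fun K => J ⊆ K)) := by
  unfold cup
  rw [if_pos h]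

theorem cup_not (Φ Ψ : Cch n m) {c : Finset (Finset (Fin n))} (h : ¬ Smp A b c) :
    cup A b Φ Ψ c = 0 := by
  unfold cup
  rw [if_neg h]

theorem cup_assoc' (Φ Ψ Θ : Cch n m) :
    cup A b (cup A b Φ Ψ) Θ = cup A b Φ (cup A b Ψ Θ) := by
  funext c
  by_cases h : Smp A b c
  · rw [cup_smp _ _ h, cup_smp _ _ h]
    have e1 : ∀ J ∈ c, cup A b Φ Ψ (c.filter (fun K => K ⊆ J)) * Θ (c.filter (fun K => J ⊆ K))
        = ∑ L ∈ c.filter (fun K => K ⊆ J), Φ (c.filter (fun K => K ⊆ L)) *
            Ψ (c.filter (fun K => L ⊆ K ∧ K ⊆ J)) * Θ (c.filter (fun K => J ⊆ K)) := by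
      intro J hJ
      rw [cup_smp _ _ (smp_lo h hJ), Finset.sum_mul]
      refine Finset.sum_congr rfl (fun L hL => ?_)
      have hLJ : L ⊆ J := (Finset.mem_filter.mp hL).2
      congr 2
      · congr 1
        rw [Finset.filter_filter]
        refine Finset.filter_congr (fun K _ => ?_)
        exact ⟨fun hh => hh.2, fun hh => ⟨hh.trans hLJ, hh⟩⟩
      · rw [Finset.filter_filter]
        congr 1
        refine Finset.filter_congr (fun K _ => ?_)
        exact ⟨fun hh => ⟨hh.2, hh.1⟩, fun hh => ⟨hh.2, hh.1⟩⟩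
    have e2 : ∀ L ∈ c, Φ (c.filter (fun K => K ⊆ L)) * cup A b Ψ Θ (c.filter (fun K => L ⊆ K))
        = ∑ J ∈ c.filter (fun K => L ⊆ K), Φ (c.filter (fun K => K ⊆ L)) *
            Ψ (c.filter (fun K => L ⊆ K ∧ K ⊆ J)) * Θ (c.filter (fun K => J ⊆ K)) := by
      intro L hL
      rw [cup_smp _ _ (smp_hi h hL), Finset.mul_sum]
      refine Finset.sum_congr rfl (fun J hJ => ?_)
      have hLJ : L ⊆ J := (Finset.mem_filter.mp hJ).2
      rw [Finset.filter_filter, Finset.filter_filter, mul_assoc]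
      have e3 : c.filter (fun K => L ⊆ K ∧ J ⊆ K) = c.filter (fun K => J ⊆ K) := by
        refine Finset.filter_congr (fun K _ => ?_)
        exact ⟨fun hh => hh.2, fun hh => ⟨hLJ.trans hh, hh⟩⟩
      rw [e3]
    rw [Finset.sum_congr rfl e1, Finset.sum_congr rfl e2]
    refine Finset.sum_comm' (fun J L => ?_)
    simp only [Finset.mem_filter]
    tauto
  · rw [cup_not _ _ h, cup_not _ _ h]

theorem cup_add_left (Φ Ψ Θ : Cch n m) :
    cup A b (Φ + Ψ) Θ = cup A b Φ Θ + cup A b Ψ Θ := by
  funext c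
  by_cases h : Smp A b c
  · rw [Pi.add_apply, cup_smp _ _ h, cup_smp _ _ h, cup_smp _ _ h, ← Finset.sum_add_distrib]
    refine Finset.sum_congr rfl (fun J _ => ?_)
    rw [Pi.add_apply, add_mul]
  · rw [Pi.add_apply, cup_not _ _ h, cup_not _ _ h, cup_not _ _ h, add_zero]

theorem cup_add_right (Φ Ψ Θ : Cch n m) :
    cup A b Φ (Ψ + Θ) = cup A b Φ Ψ + cup A b Φ Θ := by
  funext c
  by_cases h : Smp A b c
  · rw [Pi.add_apply, cup_smp _ _ h, cup_smp _ _ h, cup_smp _ _ h, ← Finset.sum_add_distrib]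
    refine Finset.sum_congr rfl (fun J _ => ?_)
    rw [Pi.add_apply, mul_add]
  · rw [Pi.add_apply, cup_not _ _ h, cup_not _ _ h, cup_not _ _ h, add_zero]

theorem cup_smul_left (f : Pl n m) (Φ Ψ : Cch n m) :
    cup A b (f • Φ) Ψ = f • cup A b Φ Ψ := by
  funext c
  by_cases h : Smp A b c
  · rw [Pi.smul_apply, cup_smp _ _ h, cup_smp _ _ h, smul_eq_mul, Finset.mul_sum]
    refine Finset.sum_congr rfl (fun J _ => ?_)
    rw [Pi.smul_apply, smul_eq_mul, mul_assoc]
  · rw [Pi.smul_apply, cup_not _ _ h, cup_not _ _ h, smul_zero]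

theorem cup_smul_right (f : Pl n m) (Φ Ψ : Cch n m) :
    cup A b Φ (f • Ψ) = f • cup A b Φ Ψ := by
  funext c
  by_cases h : Smp A b c
  · rw [Pi.smul_apply, cup_smp _ _ h, cup_smp _ _ h, smul_eq_mul, Finset.mul_sum]
    refine Finset.sum_congr rfl (fun J _ => ?_)
    rw [Pi.smul_apply, smul_eq_mul, mul_left_comm]
  · rw [Pi.smul_apply, cup_not _ _ h, cup_not _ _ h, smul_zero]

/-- A simplex has a smallest member. -/
theorem exists_least {c : Finset (Finset (Fin n))} (h : Smp A b c) :
    ∃ J ∈ c, ∀ K ∈ c, J ⊆ K := by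
  obtain ⟨J, hJ, hmin⟩ := Finset.exists_min_image c Finset.card h.1
  refine ⟨J, hJ, fun K hK => ?_⟩
  rcases h.2.2 J hJ K hK with h1 | h1
  · exact h1
  · have := Finset.eq_of_subset_of_card_le h1 (hmin K hK)
    rw [this]

/-- A simplex has a largest member. -/
theorem exists_greatest {c : Finset (Finset (Fin n))} (h : Smp A b c) :
    ∃ J ∈ c, ∀ K ∈ c, K ⊆ J := by
  obtain ⟨J, hJ, hmax⟩ := Finset.exists_max_image c Finset.card h.1
  refine ⟨J, hJ, fun K hK => ?_⟩
  rcases h.2.2 J hJ K hK with h1 | h1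
  · have := Finset.eq_of_subset_of_card_le h1 (hmax K hK)
    rw [this]
  · exact h1

theorem un_smp {c : Finset (Finset (Fin n))} (h : Smp A b c) (h1 : c.card = 1) :
    un (m := m) A b c = 1 := by
  unfold un
  rw [if_pos ⟨h, h1⟩]

theorem un_card {c : Finset (Finset (Fin n))} (h1 : c.card ≠ 1) :
    un (m := m) A b c = 0 := by
  unfold un
  rw [if_neg (fun hh => h1 hh.2)]

theorem un_not {c : Finset (Finset (Fin n))} (h1 : ¬ Smp A b c) :
    un (m := m) A b c = 0 := by
  unfold un
  rw [if_neg (fun hh => h1 hh.1)]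

theorem un_cup (Φ : Cch n m) (hΦ : ∀ c, ¬ Smp A b c → Φ c = 0) :
    cup A b (un A b) Φ = Φ := by
  funext c
  by_cases h : Smp A b c
  · rw [cup_smp _ _ h]
    obtain ⟨J, hJ, hle⟩ := exists_least h
    rw [Finset.sum_eq_single J]
    · have e1 : c.filter (fun K => K ⊆ J) = {J} := by
        ext K
        simp only [Finset.mem_filter, Finset.mem_singleton]
        constructor
        · rintro ⟨h1, h2⟩
          exact h2.antisymm (hle K h1)
        · rintro rfl
          exact ⟨hJ, subset_rfl⟩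
      have e2 : c.filter (fun K => J ⊆ K) = c := Finset.filter_true_of_mem hle
      rw [un_smp (smp_lo h hJ) (by rw [e1, Finset.card_singleton]), e2, one_mul]
    · intro K hK hKJ
      rw [un_card, zero_mul]
      intro hcard
      rw [Finset.card_eq_one] at hcard
      obtain ⟨L, hL⟩ := hcard
      have h1 : K ∈ c.filter (fun M => M ⊆ K) := by simp [hK]
      have h2 : J ∈ c.filter (fun M => M ⊆ K) := by simp [hJ, hle K hK]
      rw [hL, Finset.mem_singleton] at h1 h2
      exact hKJ (h1.trans h2.symm)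
    · intro hh
      exact absurd hJ hh
  · rw [cup_not _ _ h, hΦ c h]

theorem cup_un (Φ : Cch n m) (hΦ : ∀ c, ¬ Smp A b c → Φ c = 0) :
    cup A b Φ (un A b) = Φ := by
  funext c
  by_cases h : Smp A b c
  · rw [cup_smp _ _ h]
    obtain ⟨J, hJ, hle⟩ := exists_greatest h
    rw [Finset.sum_eq_single J]
    · have e1 : c.filter (fun K => J ⊆ K) = {J} := by
        ext K
        simp only [Finset.mem_filter, Finset.mem_singleton]
        constructor
        · rintro ⟨h1, h2⟩
          exact (hle K h1).antisymm h2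
        · rintro rfl
          exact ⟨hJ, subset_rfl⟩
      have e2 : c.filter (fun K => K ⊆ J) = c := Finset.filter_true_of_mem hle
      rw [un_smp (smp_hi h hJ) (by rw [e1, Finset.card_singleton]), e2, mul_one]
    · intro K hK hKJ
      rw [un_card, mul_zero]
      intro hcard
      rw [Finset.card_eq_one] at hcard
      obtain ⟨L, hL⟩ := hcard
      have h1 : K ∈ c.filter (fun M => K ⊆ M) := by simp [hK]
      have h2 : J ∈ c.filter (fun M => K ⊆ M) := by simp [hJ, hle K hK]
      rw [hL, Finset.mem_singleton] at h1 h2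
      exact hKJ (h1.trans h2.symm)
    · intro hh
      exact absurd hJ hh
  · rw [cup_not _ _ h, hΦ c h]

/-- In a simplex, the members below `J` and above `J` overlap exactly in `J`. -/
theorem card_lo_hi {c : Finset (Finset (Fin n))} (h : Smp A b c) {J : Finset (Fin n)}
    (hJ : J ∈ c) :
    (c.filter (fun K => K ⊆ J)).card + (c.filter (fun K => J ⊆ K)).card = c.card + 1 := by
  have e1 : c.filter (fun K => K ⊆ J) ∪ c.filter (fun K => J ⊆ K) = c := by
    ext K
    simp only [Finset.mem_union, Finset.mem_filter]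
    constructor
    · rintro (hh | hh)
      · exact hh.1
      · exact hh.1
    · intro hK
      rcases h.2.2 J hJ K hK with h1 | h1
      · exact Or.inr ⟨hK, h1⟩
      · exact Or.inl ⟨hK, h1⟩
  have e2 : c.filter (fun K => K ⊆ J) ∩ c.filter (fun K => J ⊆ K) = {J} := by
    ext K
    simp only [Finset.mem_inter, Finset.mem_filter, Finset.mem_singleton]
    constructor
    · rintro ⟨h1, h2⟩
      exact h1.2.antisymm h2.2
    · rintro rfl
      exact ⟨⟨hJ, subset_rfl⟩, ⟨hJ, subset_rfl⟩⟩
  have := Finset.card_union_add_card_inter (c.filter (fun K => K ⊆ J))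
    (c.filter (fun K => J ⊆ K))
  rw [e1, e2, Finset.card_singleton] at this
  exact this.symm

theorem cmp_eq (p : ℕ) (Φ : Cch n m) {c : Finset (Finset (Fin n))} (h : c.card = p + 1) :
    cmp p Φ c = Φ c := by
  unfold Pool.Agent.Y461.KM.cmp
  rw [if_pos h]

theorem cmp_ne (p : ℕ) (Φ : Cch n m) {c : Finset (Finset (Fin n))} (h : c.card ≠ p + 1) :
    cmp p Φ c = 0 := by
  unfold Pool.Agent.Y461.KM.cmp
  rw [if_neg h]

theorem cmp_cup (p : ℕ) (Φ Ψ : Cch n m) : cmp p (cup A b Φ Ψ) =
    ∑ k ∈ Finset.range (p + 1), cup A b (cmp k Φ) (cmp (p - k) Ψ) := by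
  funext c
  rw [Finset.sum_apply]
  by_cases h : Smp A b c
  · by_cases hc : c.card = p + 1
    · rw [cmp_eq _ _ hc, cup_smp _ _ h]
      simp only [cup_smp _ _ h]
      rw [Finset.sum_comm]
      refine Finset.sum_congr rfl (fun J hJ => ?_)
      have hcard := card_lo_hi h hJ
      have hlo : 0 < (c.filter (fun K => K ⊆ J)).card :=
        Finset.card_pos.mpr (smp_lo h hJ).1
      have hhi : 0 < (c.filter (fun K => J ⊆ K)).card :=
        Finset.card_pos.mpr (smp_hi h hJ).1
      rw [Finset.sum_eq_single ((c.filter (fun K => K ⊆ J)).card - 1)]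
      · rw [cmp_eq _ _ (by omega), cmp_eq _ _ (by omega)]
      · intro k _ hk
        rw [cmp_ne k Φ (by omega), zero_mul]
      · intro hk
        exfalso
        apply hk
        rw [Finset.mem_range]
        omega
    · rw [cmp_ne _ _ hc]
      symm
      refine Finset.sum_eq_zero (fun k hk => ?_)
      rw [cup_smp _ _ h]
      refine Finset.sum_eq_zero (fun J hJ => ?_)
      have hcard := card_lo_hi h hJ
      rw [Finset.mem_range] at hk
      by_cases h1 : (c.filter (fun K => K ⊆ J)).card = k + 1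
      · rw [cmp_ne (p - k) Ψ (by omega), mul_zero]
      · rw [cmp_ne k Φ h1, zero_mul]
  · have e1 : cmp p (cup A b Φ Ψ) c = 0 := by
      by_cases hc : c.card = p + 1
      · rw [cmp_eq _ _ hc, cup_not _ _ h]
      · rw [cmp_ne _ _ hc]
    rw [e1]
    symm
    refine Finset.sum_eq_zero (fun k _ => ?_)
    rw [cup_not _ _ h]

theorem co_cmp (p : ℕ) (Φ : Cch n m) (hΦ : Co A b Φ) : Co A b (cmp p Φ) := by
  intro c
  by_cases hc : c.card = p + 1
  · rw [cmp_eq _ _ hc]
    exact hΦ c
  · rw [cmp_ne _ _ hc]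
    exact ⟨fun _ => rfl, Subalgebra.zero_mem _⟩

theorem dd_cmp (p : ℕ) (Φ : Cch n m) : dd A b (cmp p Φ) = cmp (p + 1) (dd A b Φ) := by
  funext c
  by_cases h : Smp A b c
  · by_cases hc : c.card = p + 1 + 1
    · rw [cmp_eq _ _ hc]
      unfold dd
      rw [if_pos h, if_pos h]
      refine Finset.sum_congr rfl (fun J hJ => ?_)
      rw [cmp_eq p Φ]
      rw [Finset.card_erase_of_mem hJ, hc]
      omega
    · rw [cmp_ne _ _ hc]
      unfold dd
      rw [if_pos h]
      refine Finset.sum_eq_zero (fun J hJ => ?_)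
      rw [cmp_ne p Φ, mul_zero]
      rw [Finset.card_erase_of_mem hJ]
      have := Finset.card_pos.mpr h.1
      omega
  · have e1 : dd A b (cmp p Φ) c = 0 := by
      unfold dd
      rw [if_neg h]
    have e2 : dd A b Φ c = 0 := by
      unfold dd
      rw [if_neg h]
    rw [e1]
    by_cases hc : c.card = p + 1 + 1
    · rw [cmp_eq _ _ hc, e2]
    · rw [cmp_ne _ _ hc]

/-! ### Cocycles of degree zero -/

theorem sph_empty : Sph A b ∅ := by
  unfold Sph
  simp

theorem rf_X (i : Fin n) (x : Fin n ⊕ Fin m) :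
    rf A b i (X x) = X x - if x = Sum.inl i then al A b i else 0 := by
  unfold rf
  rw [aeval_X]

theorem rf_al (i : Fin n) (h2 : A i i = 2) : rf A b i (al A b i) = - al A b i := by
  have e1 : ∀ j : Fin n, rf A b i (C ((A j i : ℤ) : ℚ) * X (Sum.inl j))
      = C ((A j i : ℤ) : ℚ) * X (Sum.inl j) -
        if j = i then C ((A j i : ℤ) : ℚ) * al A b i else 0 := by
    intro j
    rw [map_mul, rf_X, ← algebraMap_eq, AlgHom.commutes, mul_sub]
    by_cases hj : j = i
    · rw [if_pos (by rw [hj]), if_pos hj]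
    · rw [if_neg (fun hh => hj (Sum.inl_injective hh)), if_neg hj, mul_zero]
  have e2 : ∀ s : Fin m, rf A b i (C (b i s) * X (Sum.inr s))
      = C (b i s) * X (Sum.inr s) := by
    intro s
    rw [map_mul, rf_X, ← algebraMap_eq, AlgHom.commutes, if_neg (by simp), sub_zero]
  have e3 : rf A b i (al A b i) = al A b i - C ((A i i : ℤ) : ℚ) * al A b i := by
    have h0 : al A b i = ∑ j, C ((A j i : ℤ) : ℚ) * X (Sum.inl j) +
      ∑ s, C (b i s) * X (Sum.inr s) := rfl
    conv_lhs => unfold al
    rw [map_add, map_sum, map_sum, Finset.sum_congr rfl (fun j _ => e1 j),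
      Finset.sum_congr rfl (fun s _ => e2 s), Finset.sum_sub_distrib, Finset.sum_ite_eq']
    simp only [Finset.mem_univ, if_true]
    linear_combination -h0
  rw [e3, h2]
  have : (C (((2 : ℤ)) : ℚ) : Pl n m) = 2 := by
    rw [Int.cast_ofNat]
    exact map_ofNat C 2
  rw [this]
  ring

theorem rf_rf (i : Fin n) (h2 : A i i = 2) : rf A b i * rf A b i = 1 := by
  apply MvPolynomial.algHom_ext
  intro x
  rw [AlgHom.mul_apply, rf_X, map_sub, rf_X]
  by_cases hx : x = Sum.inl i
  · rw [if_pos hx, rf_al i h2]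
    simp
  · rw [if_neg hx, map_zero]
    simp

theorem sph_single (i : Fin n) (h2 : A i i = 2) : Sph A b {i} := by
  unfold Sph
  rw [Finset.coe_singleton, Set.image_singleton]
  have hs : (Submonoid.closure {rf A b i} : Set (Pl n m →ₐ[ℚ] Pl n m)) ⊆ {1, rf A b i} := by
    intro x hx
    rw [SetLike.mem_coe, Submonoid.mem_closure_singleton] at hx
    obtain ⟨k, rfl⟩ := hx
    rcases Nat.even_or_odd' k with ⟨l, hl | hl⟩
    · left
      rw [hl, pow_mul, pow_two, rf_rf i h2, one_pow]
    · right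
      rw [hl, pow_add, pow_mul, pow_two, rf_rf i h2, one_pow, one_mul, pow_one]
      rfl
  exact Set.Finite.subset (by simp) hs

theorem smp_single {J : Finset (Fin n)} : Smp A b {J} ↔ Sph A b J := by
  constructor
  · intro h
    exact h.2.1 J (by simp)
  · intro h
    refine ⟨⟨J, by simp⟩, ?_, ?_⟩
    · intro K hK
      rw [Finset.mem_singleton] at hK
      rw [hK]
      exact h
    · intro K hK L hL
      rw [Finset.mem_singleton] at hK hL
      left
      rw [hK, hL]

theorem cocycle_zero (Φ : Cch n m) (hd : dd A b Φ = 0) {J : Finset (Fin n)} (hJ : Sph A b J) :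
    Φ {J} = Φ {∅} := by
  by_cases hJe : J = ∅
  · rw [hJe]
  · have hs : Smp A b {∅, J} := by
      refine ⟨⟨∅, by simp⟩, ?_, ?_⟩
      · intro K hK
        rw [Finset.mem_insert, Finset.mem_singleton] at hK
        rcases hK with rfl | rfl
        · exact sph_empty
        · exact hJ
      · intro K hK L hL
        rw [Finset.mem_insert, Finset.mem_singleton] at hK hL
        rcases hK with rfl | rfl
        · left
          exact Finset.empty_subset _
        · rcases hL with rfl | rfl
          · right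
            exact Finset.empty_subset _
          · left
            exact subset_rfl
    have h0 := congrFun hd {∅, J}
    unfold dd at h0
    rw [if_pos hs, Finset.sum_pair (Ne.symm hJe)] at h0
    have f1 : (({∅, J} : Finset (Finset (Fin n))).filter (fun K => K ⊂ ∅)).card = 0 := by
      rw [Finset.card_eq_zero, Finset.filter_eq_empty_iff]
      intro K _ hK
      exact Finset.not_ssubset_empty K hK
    have f2 : (({∅, J} : Finset (Finset (Fin n))).filter (fun K => K ⊂ J)) = {∅} := by
      ext K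
      simp only [Finset.mem_filter, Finset.mem_insert, Finset.mem_singleton]
      constructor
      · rintro ⟨rfl | rfl, h2⟩
        · rfl
        · exact absurd rfl h2.ne
      · rintro rfl
        exact ⟨Or.inl rfl, Finset.ssubset_iff_subset_ne.mpr ⟨Finset.empty_subset _, Ne.symm hJe⟩⟩
    have g1 : ({∅, J} : Finset (Finset (Fin n))).erase ∅ = {J} := by
      ext K
      simp only [Finset.mem_erase, Finset.mem_insert, Finset.mem_singleton]
      constructor
      · rintro ⟨h1, h2 | h2⟩
        · exact absurd h2 h1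
        · exact h2
      · rintro rfl
        exact ⟨hJe, Or.inr rfl⟩
    have g2 : ({∅, J} : Finset (Finset (Fin n))).erase J = {∅} := by
      ext K
      simp only [Finset.mem_erase, Finset.mem_insert, Finset.mem_singleton]
      constructor
      · rintro ⟨h1, h2 | h2⟩
        · exact h2
        · exact absurd h2 h1
      · rintro rfl
        exact ⟨Ne.symm hJe, Or.inl rfl⟩
    rw [f1, f2, g1, g2, Finset.card_singleton, pow_zero, pow_one, Pi.zero_apply] at h0
    have h3 : Φ {J} - Φ {∅} = 0 := by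
      rw [← h0]
      ring
    exact sub_eq_zero.mp h3

theorem cmp_zero_cocycle (hA : ∀ i, A i i = 2) (Φ : Cch n m) (hΦ : Co A b Φ)
    (hd : dd A b Φ = 0) : ∃ f ∈ Inv A b Finset.univ, cmp 0 Φ = f • un A b := by
  refine ⟨Φ {∅}, ?_, ?_⟩
  · intro j _
    have h1 := (hΦ {{j}}).2
    rw [Finset.inf_singleton, id] at h1
    have h2 := h1 j (by simp)
    rw [cocycle_zero Φ hd (sph_single j (hA j))] at h2
    exact h2
  · funext c
    rw [Pi.smul_apply, smul_eq_mul]
    by_cases hc : c.card = 1
    · rw [cmp_eq 0 Φ hc]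
      by_cases hs : Smp A b c
      · rw [un_smp hs hc, mul_one]
        obtain ⟨J, rfl⟩ := Finset.card_eq_one.mp hc
        exact cocycle_zero Φ hd (smp_single.mp hs)
      · rw [un_not hs, mul_zero]
        exact (hΦ c).1 hs
    · rw [cmp_ne 0 Φ hc, un_card hc, mul_zero]

/-- DGA. -/
theorem dga : S_DGA := by
  intro n m A b hA
  exact ⟨cup_assoc', cup_add_left, cup_add_right, cup_smul_left, cup_smul_right,
    fun Φ hΦ => ⟨un_cup Φ hΦ, cup_un Φ hΦ⟩, cmp_cup, co_cmp, fun p Φ _ => dd_cmp p Φ,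
    fun Φ hΦ hd => cmp_zero_cocycle hA Φ hΦ hd⟩

end Pool.Agent.Y473.KM
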