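import Pool.Agent.Y461.KM.Stm

/-!
# Project KM: from finite generation of the ring to finite generation of the modules (KM-FGM)
-/

set_option autoImplicit false

namespace Pool.Agent.Y473.KM

open MvPolynomial Pool.Agent.Y461.KM

variable {n m : ℕ} {A : Matrix (Fin n) (Fin n) ℤ} {b : Fin n → Fin m → ℚ}

/-- Words of total degree `p` in the positive components of the generators. -/
inductive Wd (A : Matrix (Fin n) (Fin n) ℤ) (b : Fin n → Fin m → ℚ) (s : Set (Cch n m)) :
    ℕ → Cch n m → Prop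
  | one : Wd A b s 0 (un A b)
  | cons (k p : ℕ) (g w : Cch n m) : g ∈ s → Wd A b s p w →
      Wd A b s (k + 1 + p) (cup A b (Pool.Agent.Y461.KM.cmp (k + 1) g) w)

theorem wd_vanish {s : Set (Cch n m)} {p : ℕ} {w : Cch n m} (hw : Wd A b s p w) :
    ∀ c, ¬ Smp A b c → w c = 0 := by
  intro c hc
  cases hw with
  | one =>
    unfold un
    rw [if_neg (fun hh => hc hh.1)]
  | cons k p g w hg hw =>
    unfold cup
    rw [if_neg hc]

theorem wd_finite {s : Set (Cch n m)} (hs : s.Finite) (p : ℕ) :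
    {w | Wd A b s p w}.Finite := by
  induction p using Nat.strong_induction_on with
  | _ p ih =>
    have hsub : {w | Wd A b s p w} ⊆ {un A b} ∪
        ⋃ k ∈ Finset.range p, ⋃ q ∈ Finset.range p,
          Set.image2 (fun g w => cup A b (Pool.Agent.Y461.KM.cmp (k + 1) g) w) s
            {w | Wd A b s q w} := by
      intro w hw
      rw [Set.mem_ofPred_eq] at hw
      cases hw with
      | one =>
        left
        rfl
      | cons k q g w hg hw =>
        right
        rw [Set.mem_iUnion₂]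
        refine ⟨k, Finset.mem_range.mpr (by omega), ?_⟩
        rw [Set.mem_iUnion₂]
        exact ⟨q, Finset.mem_range.mpr (by omega), ⟨g, hg, w, hw, rfl⟩⟩
    refine Set.Finite.subset ?_ hsub
    refine (Set.finite_singleton _).union ?_
    refine Set.Finite.biUnion (Finset.finite_toSet _) (fun k _ => ?_)
    refine Set.Finite.biUnion (Finset.finite_toSet _) (fun q hq => ?_)
    exact Set.Finite.image2 _ hs (ih q (Finset.mem_range.mp hq))

/-- The span of the words of total degree `p` over the invariants of the whole group. -/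
noncomputable def Us (A : Matrix (Fin n) (Fin n) ℤ) (b : Fin n → Fin m → ℚ) (s : Set (Cch n m))
    (p : ℕ) : Submodule (Inv A b Finset.univ) (Cch n m) :=
  Submodule.span (Inv A b Finset.univ) {w | Wd A b s p w}

theorem us_wd {s : Set (Cch n m)} {p : ℕ} {w : Cch n m} (hw : Wd A b s p w) :
    w ∈ Us A b s p := Submodule.subset_span hw

theorem wd_mul (hD : S_DGA) (hA : ∀ i, A i i = 2) {s : Set (Cch n m)} {p q : ℕ}
    {w v : Cch n m} (hw : Wd A b s p w) (hv : Wd A b s q v) :
    Wd A b s (p + q) (cup A b w v) := by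
  obtain ⟨h1, _, _, _, _, h6, _⟩ := hD n m A b hA
  induction hw with
  | one =>
    rw [(h6 v (wd_vanish hv)).1, zero_add]
    exact hv
  | cons k p g w hg hw ih =>
    rw [h1, add_assoc]
    exact Wd.cons k (p + q) g _ hg ih

theorem us_mul (hD : S_DGA) (hA : ∀ i, A i i = 2) {s : Set (Cch n m)} {p q : ℕ}
    {w v : Cch n m} (hw : w ∈ Us A b s p) (hv : v ∈ Us A b s q) :
    cup A b w v ∈ Us A b s (p + q) := by
  obtain ⟨_, h2, h3, h4, h5, _⟩ := hD n m A b hA
  unfold Us at hw
  refine Submodule.span_induction (p := fun w _ => cup A b w v ∈ Us A b s (p + q))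
    ?_ ?_ ?_ ?_ hw
  · intro w hw
    unfold Us at hv
    refine Submodule.span_induction (p := fun v _ => cup A b w v ∈ Us A b s (p + q))
      ?_ ?_ ?_ ?_ hv
    · intro v hv
      exact us_wd (wd_mul hD hA hw hv)
    · have := h5 0 w 0
      rw [zero_smul, zero_smul] at this
      rw [this]
      exact Submodule.zero_mem _
    · intro x y _ _ hx hy
      rw [h3]
      exact Submodule.add_mem _ hx hy
    · intro a x _ hx
      rw [Subalgebra.smul_def, h5, ← Subalgebra.smul_def]
      exact Submodule.smul_mem _ _ hx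
  · have := h4 0 0 v
    rw [zero_smul, zero_smul] at this
    rw [this]
    exact Submodule.zero_mem _
  · intro x y _ _ hx hy
    rw [h2]
    exact Submodule.add_mem _ hx hy
  · intro a x _ hx
    rw [Subalgebra.smul_def, h4, ← Subalgebra.smul_def]
    exact Submodule.smul_mem _ _ hx

theorem gen_us (hD : S_DGA) (hA : ∀ i, A i i = 2) {s : Set (Cch n m)}
    (hs : ∀ Φ ∈ s, Co A b Φ ∧ dd A b Φ = 0) {Ψ : Cch n m} (hΨ : Gen A b s Ψ) :
    ∀ p, Pool.Agent.Y461.KM.cmp p Ψ ∈ Us A b s p := by
  obtain ⟨_, _, _, _, _, h6, h7, h8, _, h10⟩ := hD n m A b hA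
  induction hΨ with
  | mem Φ hΦ =>
    intro p
    rcases p with _ | p
    · obtain ⟨f, hf, he⟩ := h10 Φ (hs Φ hΦ).1 (hs Φ hΦ).2
      rw [he]
      have := Submodule.smul_mem (Us A b s 0) (⟨f, hf⟩ : Inv A b Finset.univ)
        (us_wd (Wd.one (A := A) (b := b) (s := s)))
      exact this
    · have e1 := (h6 (Pool.Agent.Y461.KM.cmp (p + 1) Φ)
        (fun c hc => (h8 (p + 1) Φ (hs Φ hΦ).1 c).1 hc)).2
      rw [← e1]
      have := us_wd (Wd.cons p 0 Φ _ hΦ (Wd.one (A := A) (b := b) (s := s)))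
      exact this
  | one =>
    intro p
    rcases p with _ | p
    · have : Pool.Agent.Y461.KM.cmp 0 (un A b) = un (m := m) A b := by
        funext c
        unfold Pool.Agent.Y461.KM.cmp
        by_cases hc : c.card = 0 + 1
        · rw [if_pos hc]
        · rw [if_neg hc]
          unfold un
          rw [if_neg (fun hh => hc hh.2)]
      rw [this]
      exact us_wd Wd.one
    · have : Pool.Agent.Y461.KM.cmp (p + 1) (un A b) = (0 : Cch n m) := by
        funext c
        unfold Pool.Agent.Y461.KM.cmp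
        by_cases hc : c.card = p + 1 + 1
        · rw [if_pos hc]
          unfold un
          rw [if_neg (fun hh => by have := hh.2; omega)]
          rfl
        · rw [if_neg hc]
          rfl
      rw [this]
      exact Submodule.zero_mem _
  | add Φ Ψ _ _ ih1 ih2 =>
    intro p
    have : Pool.Agent.Y461.KM.cmp p (Φ + Ψ) =
        Pool.Agent.Y461.KM.cmp p Φ + Pool.Agent.Y461.KM.cmp p Ψ := by
      funext c
      rw [Pi.add_apply]
      unfold Pool.Agent.Y461.KM.cmp
      by_cases hc : c.card = p + 1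
      · rw [if_pos hc, if_pos hc, if_pos hc]
        rfl
      · rw [if_neg hc, if_neg hc, if_neg hc, add_zero]
    rw [this]
    exact Submodule.add_mem _ (ih1 p) (ih2 p)
  | smul a Φ _ ih =>
    intro p
    have : Pool.Agent.Y461.KM.cmp p (a • Φ) =
        (algebraMap ℚ (Inv A b Finset.univ) a) • Pool.Agent.Y461.KM.cmp p Φ := by
      funext c
      rw [Pi.smul_apply, algebraMap_smul]
      unfold Pool.Agent.Y461.KM.cmp
      by_cases hc : c.card = p + 1
      · rw [if_pos hc, if_pos hc]
        rfl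
      · rw [if_neg hc, if_neg hc, smul_zero]
    rw [this]
    exact Submodule.smul_mem _ _ (ih p)
  | cup Φ Ψ _ _ ih1 ih2 =>
    intro p
    rw [h7]
    refine Submodule.sum_mem _ (fun k hk => ?_)
    have := us_mul hD hA (ih1 k) (ih2 (p - k))
    rw [Finset.mem_range] at hk
    rwa [show k + (p - k) = p by omega] at this

/-- FGM. -/
theorem fgm : S_DGA → S_FGM := by
  intro hD n m A b hA hF p
  obtain ⟨s, hsf, hs, hgen⟩ := hF
  have hfin := wd_finite (A := A) (b := b) hsf p
  refine ⟨hfin.toFinset, fun Φ hΦ => ?_⟩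
  obtain ⟨hΦC, hΦd⟩ := hΦ
  have hΦd' : dd A b Φ = 0 := hΦd
  obtain ⟨Ψ, Θ, hΨ, hΘ, he⟩ := hgen Φ hΦC.1 hΦd'
  have h1 := gen_us hD hA hs hΨ p
  unfold Us at h1
  rw [← hfin.coe_toFinset] at h1
  obtain ⟨a, _, ha⟩ := Submodule.mem_span_finset.mp h1
  refine ⟨fun g => (a g : Pl n m), fun g => (a g).2, ?_⟩
  have e1 : ∑ g ∈ hfin.toFinset, ((a g : Pl n m)) • g = Pool.Agent.Y461.KM.cmp p Ψ := by
    rw [← ha]
    rfl
  have e2 : Φ = Pool.Agent.Y461.KM.cmp p Ψ + Pool.Agent.Y461.KM.cmp p (dd A b Θ) := by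
    funext c
    rw [Pi.add_apply]
    unfold Pool.Agent.Y461.KM.cmp
    by_cases hc : c.card = p + 1
    · rw [if_pos hc, if_pos hc, ← Pi.add_apply, ← he]
    · rw [if_neg hc, if_neg hc, add_zero]
      exact hΦC.2 c hc
  have e3 : Φ - ∑ g ∈ hfin.toFinset, ((a g : Pl n m)) • g =
      Pool.Agent.Y461.KM.cmp p (dd A b Θ) := by
    rw [e1]
    nth_rewrite 1 [e2]
    rw [add_sub_cancel_left]
  rw [e3]
  obtain ⟨_, _, _, _, _, _, _, h8, h9, _⟩ := hD n m A b hA
  rcases p with _ | p
  · have : Pool.Agent.Y461.KM.cmp 0 (dd A b Θ) = (0 : Cch n m) := by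
      funext c
      unfold Pool.Agent.Y461.KM.cmp
      by_cases hc : c.card = 0 + 1
      · rw [if_pos hc]
        obtain ⟨J, rfl⟩ := Finset.card_eq_one.mp hc
        unfold dd
        by_cases hs : Smp A b {J}
        · rw [if_pos hs, Finset.sum_singleton]
          have e4 : ({J} : Finset (Finset (Fin n))).erase J = ∅ := by simp
          rw [e4, (hΘ ∅).1 (fun hh => Finset.not_nonempty_empty hh.1), mul_zero]
          rfl
        · rw [if_neg hs]
          rfl
      · rw [if_neg hc]
        rfl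
    rw [this]
    exact Submodule.zero_mem _
  · rw [← h9 p Θ hΘ]
    refine ⟨Pool.Agent.Y461.KM.cmp p Θ, ⟨h8 p Θ hΘ, fun c hc => ?_⟩, rfl⟩
    unfold Pool.Agent.Y461.KM.cmp
    rw [if_neg hc]

end Pool.Agent.Y473.KM
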